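import Pool.Agent.helper17.EXT.Spec

/-!
# Row RTF of project EXT: facts on the symmetry of the diagram of type `E₆`
-/

set_option autoImplicit false

open Finset

namespace Pool.Agent.EXT

open Pool.Agent.EXC

/-- the form in coordinates -/
theorem RTF_ip (v w : Fin 6 → ℤ) : ip C6 v w =
    2 * (v 0 * w 0 + v 1 * w 1 + v 2 * w 2 + v 3 * w 3 + v 4 * w 4 + v 5 * w 5) -
      (v 0 * w 2 + v 2 * w 0) - (v 2 * w 3 + v 3 * w 2) - (v 1 * w 3 + v 3 * w 1) - (v 3 * w 4 + v 4 * w 3) -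
      (v 4 * w 5 + v 5 * w 4) := by
  simp only [ip, Fin.sum_univ_six, CartanMatrix.E₆, Matrix.of_apply, Matrix.cons_val', Matrix.cons_val_zero, Matrix.cons_val_one,
    Matrix.cons_val, Matrix.cons_val_fin_one]
  ring

/-- the form `b` in coordinates -/
theorem RTF_bf (v w : Fin 6 → ℤ) : bf C6 v w =
    (v 0 * w 0 + v 1 * w 1 + v 2 * w 2 + v 3 * w 3 + v 4 * w 4 + v 5 * w 5) -
      (v 0 * w 2 + v 2 * w 3 + v 1 * w 3 + v 3 * w 4 + v 4 * w 5) := by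
  simp only [bf, Fin.sum_univ_six, CartanMatrix.E₆, Matrix.of_apply, Matrix.cons_val', Matrix.cons_val_zero, Matrix.cons_val_one,
    Matrix.cons_val, Matrix.cons_val_fin_one]
  simp
  ring

theorem RTF_pv (v : Fin 6 → ℤ) : pv v 0 = v 5 ∧ pv v 1 = v 1 ∧ pv v 2 = v 4 ∧ pv v 3 = v 3 ∧ pv v 4 = v 2 ∧ pv v 5 = v 0 :=
  ⟨rfl, rfl, rfl, rfl, rfl, rfl⟩

theorem RTF_pn (i : Fin 6) : pn (pn i) = i := by
  revert i
  decide

/-- sign of an integer modulo `2` -/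
def RTF_s (x : ℤ) : ℤ := if Even x then 1 else -1

theorem RTF_s_cases (x : ℤ) : RTF_s x = 1 ∨ RTF_s x = -1 := by
  unfold RTF_s
  split_ifs
  · exact Or.inl rfl
  · exact Or.inr rfl

theorem RTF_s_add (x y : ℤ) : RTF_s (x + y) = RTF_s x * RTF_s y := by
  unfold RTF_s
  by_cases hx : Even x <;> by_cases hy : Even y <;> simp [Int.even_add, hx, hy]

theorem RTF_s_eq {x y : ℤ} (h : Even (x + y)) : RTF_s x = RTF_s y := by
  unfold RTF_s
  rw [Int.even_add] at h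
  simp [h]

/-- the quadratic form of the sign -/
def RTF_q (v : Fin 6 → ℤ) : ℤ := v 0 * v 2 + v 2 * v 3 + v 3 * v 4 + v 4 * v 5

theorem RTF_sn (v : Fin 6 → ℤ) : sn v = RTF_s (RTF_q v) := rfl

theorem RTF_sg (v w : Fin 6 → ℤ) : sg C6 v w = RTF_s (bf C6 v w) := rfl

theorem RTF (hLST : LST_stmt) : RTF_stmt := by
  have hdec : ∀ v ∈ RL, pv v ≠ v → ip C6 v (pv v) = 0 := by
    decide +kernel
  refine ⟨?_, ?_, ?_, ?_, ?_, ?_, ?_, ?_, ?_, ?_, ?_, ?_, ?_, ?_, ?_⟩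
  · intro v w
    rw [RTF_ip, RTF_ip]
    obtain ⟨a0, a1, a2, a3, a4, a5⟩ := RTF_pv v
    obtain ⟨b0, b1, b2, b3, b4, b5⟩ := RTF_pv w
    rw [a0, a1, a2, a3, a4, a5, b0, b1, b2, b3, b4, b5]
    ring
  · intro v
    funext i
    show v (pn (pn i)) = v i
    rw [RTF_pn]
  · intro v w
    rfl
  · intro v
    rfl
  · intro i
    funext j
    show (Pi.single i 1 : Fin 6 → ℤ) (pn j) = (Pi.single (pn i) 1 : Fin 6 → ℤ) j
    rw [Pi.single_apply, Pi.single_apply]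
    by_cases h : pn j = i
    · rw [if_pos h, if_pos]
      rw [← h, RTF_pn]
    · rw [if_neg h, if_neg]
      intro h1
      apply h
      rw [h1, RTF_pn]
  · intro v hv i
    exact hv (pn i)
  · intro v
    exact RTF_s_cases _
  · intro v
    rw [RTF_sn, RTF_sn]
    apply RTF_s_eq
    unfold RTF_q
    obtain ⟨a0, a1, a2, a3, a4, a5⟩ := RTF_pv v
    rw [a0, a2, a3, a4, a5]
    exact ⟨v 0 * v 2 + v 2 * v 3 + v 3 * v 4 + v 4 * v 5, by ring⟩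
  · intro v
    rw [RTF_sn, RTF_sn]
    congr 1
    unfold RTF_q
    simp only [Pi.neg_apply]
    ring
  · intro i
    revert i
    decide
  · intro v hv
    rw [RTF_sn]
    have e0 : v 5 = v 0 := congrFun hv 0
    have e2 : v 4 = v 2 := congrFun hv 2
    unfold RTF_s
    rw [if_pos]
    unfold RTF_q
    rw [e0, e2]
    exact ⟨v 0 * v 2 + v 2 * v 3, by ring⟩
  · intro v w
    rw [RTF_sg, RTF_sg, RTF_sn, RTF_sn, RTF_sn, ← RTF_s_add, ← RTF_s_add, ← RTF_s_add]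
    apply RTF_s_eq
    rw [RTF_bf, RTF_bf]
    obtain ⟨a0, a1, a2, a3, a4, a5⟩ := RTF_pv v
    obtain ⟨b0, b1, b2, b3, b4, b5⟩ := RTF_pv w
    rw [a0, a1, a2, a3, a4, a5, b0, b1, b2, b3, b4, b5]
    unfold RTF_q
    simp only [Pi.add_apply]
    refine ⟨(v 0 * w 0 + v 1 * w 1 + v 2 * w 2 + v 3 * w 3 + v 4 * w 4 + v 5 * w 5) - v 1 * w 3 +
      (v 0 * v 2 + v 2 * v 3 + v 3 * v 4 + v 4 * v 5) + (w 0 * w 2 + w 2 * w 3 + w 3 * w 4 + w 4 * w 5), by ring⟩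
  · intro γ hγ
    exact hdec γ ((hLST γ).1 hγ.1) hγ.2
  · constructor
    · rw [RTF_ip]
      decide
    · decide
  · intro v
    rw [RTF_ip]
    show 2 * (1 * v 0 + 2 * v 1 + 2 * v 2 + 3 * v 3 + 2 * v 4 + 1 * v 5) -
      (1 * v 2 + 2 * v 0) - (2 * v 3 + 3 * v 2) - (2 * v 3 + 3 * v 1) - (3 * v 4 + 2 * v 3) -
      (2 * v 5 + 1 * v 4) = v 1
    ring

end Pool.Agent.EXT
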