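import Pool.Agent.helper17.EXT.SpecJ
import Pool.Agent.helper47.EXT.SYT
import Pool.Agent.helper68.EXT.FPT

/-!
# Row ftj:JNL (MP_561ff4_al): a 2-subgroup of `F₄(2^f)` which contains `U` stabilises the plane `⟨E th, E (th - α₁)⟩`
-/

set_option autoImplicit false

open Finset

namespace Pool.Agent.EXT

open Pool.Agent.EXC

/-! ## Finite facts -/

/-- the root `th - α₁` -/
def JNL_b : Fin 6 → ℤ := th - sr 1

theorem JNL_b_eq : JNL_b = th - sr 1 := rfl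

set_option maxRecDepth 100000 in
theorem JNL_f1 : ∀ w ∈ RL, (∀ k, 0 ≤ w k) → 0 ≤ ip C6 w JNL_b ∨ (ip C6 w JNL_b = -1 ∧ w + JNL_b = th) := by decide +kernel

set_option maxRecDepth 100000 in
theorem JNL_f2 : ∀ w ∈ RL, pv w = w → w 1 = 1 → w ≠ JNL_b → ∃ i, i ≠ 1 ∧ ip C6 w (sr i) = -1 := by decide +kernel

theorem JNL_f3 : ip C6 JNL_b JNL_b = 2 ∧ pv JNL_b = JNL_b ∧ JNL_b ≠ th := by decide +kernel

/-! ## Counting -/

section
variable {L : Type}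

/-- the action on a stable subset -/
def JNL_act (G : Subgroup (Equiv.Perm L)) (Q : Subgroup G) (W : Set L)
    (h : ∀ u ∈ Q, ∀ w ∈ W, ((u : G) : Equiv.Perm L) w ∈ W) : MulAction Q W where
  smul f w := ⟨((f : G) : Equiv.Perm L) w.1, h f f.2 _ w.2⟩
  one_smul w := Subtype.ext rfl
  mul_smul f g w := Subtype.ext rfl

theorem JNL_fix [Finite L] (G : Subgroup (Equiv.Perm L)) (Q : Subgroup G) (hQ : IsPGroup 2 Q) (W : Set L)
    (h : ∀ u ∈ Q, ∀ w ∈ W, ((u : G) : Equiv.Perm L) w ∈ W) (hW : 2 ∣ Nat.card W) (w0 : L) (hw0 : w0 ∈ W)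
    (hf : ∀ u ∈ Q, ((u : G) : Equiv.Perm L) w0 = w0) :
    ∃ w ∈ W, w ≠ w0 ∧ ∀ u ∈ Q, ((u : G) : Equiv.Perm L) w = w := by
  haveI : Fact (Nat.Prime 2) := ⟨Nat.prime_two⟩
  haveI : Finite W := inferInstance
  letI a1 := JNL_act G Q W h
  have hmod := hQ.card_modEq_card_fixedPoints W
  have h1 : 2 ∣ Nat.card (MulAction.fixedPoints Q W) := by
    have h2 : Nat.card W ≡ 0 [MOD 2] := (Nat.modEq_zero_iff_dvd).2 hW
    exact (Nat.modEq_zero_iff_dvd).1 (hmod.symm.trans h2)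
  have hm : (⟨w0, hw0⟩ : W) ∈ MulAction.fixedPoints Q W := fun u => Subtype.ext (hf u u.2)
  by_contra hcon
  push Not at hcon
  have hone : Nat.card (MulAction.fixedPoints Q W) = 1 := by
    rw [Nat.card_eq_one_iff_unique]
    refine ⟨⟨?_⟩, ⟨⟨_, hm⟩⟩⟩
    have key : ∀ x : MulAction.fixedPoints Q W, (x : W).1 = w0 := by
      rintro ⟨w, hw⟩
      by_contra hne
      obtain ⟨u, hu, hu2⟩ := hcon w.1 w.2 hne
      exact hu2 (congrArg Subtype.val (hw ⟨u, hu⟩))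
    intro x y
    exact Subtype.ext (Subtype.ext ((key x).trans (key y).symm))
  rw [hone] at h1
  omega

end

/-! ## The planes -/

section
variable {K : Type} [Field K]

theorem JNL_si_add (τ : K ≃+* K) (v w : Lm C6 K) : si τ (v + w) = si τ v + si τ w := by
  refine Prod.ext (funext fun i => ?_) (funext fun γ => ?_)
  · show τ ((v + w).1 (pn i)) = τ (v.1 (pn i)) + τ (w.1 (pn i))
    rw [Prod.fst_add, Pi.add_apply, map_add]
  · show (sn γ.1 : K) * τ (cf (v + w) (pv γ.1)) = (sn γ.1 : K) * τ (cf v (pv γ.1)) + (sn γ.1 : K) * τ (cf w (pv γ.1))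
    rw [cf_add, map_add, mul_add]

theorem JNL_si_smul (τ : K ≃+* K) (c : K) (v : Lm C6 K) : si τ (c • v) = τ c • si τ v := by
  refine Prod.ext (funext fun i => ?_) (funext fun γ => ?_)
  · show τ ((c • v).1 (pn i)) = τ c * τ (v.1 (pn i))
    rw [Prod.smul_fst, Pi.smul_apply, smul_eq_mul, map_mul]
  · show (sn γ.1 : K) * τ (cf (c • v) (pv γ.1)) = τ c * ((sn γ.1 : K) * τ (cf v (pv γ.1)))
    rw [cf_smul, map_mul]
    ring

/-- the plane `k ⟨E α, E β⟩` -/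
def JNL_V (α β : Fin 6 → ℤ) (k : Lm C6 K ≃ₗ[K] Lm C6 K) : Set (LT (RingEquiv.refl K)) :=
  {v | ∃ s t : K, (v : Lm C6 K) = k (s • E C6 α + t • E C6 β)}

theorem JNL_inj {α β : Fin 6 → ℤ} (hα : ip C6 α α = 2) (hβ : ip C6 β β = 2) (hne : α ≠ β) {s t s' t' : K}
    (h : s • (E C6 α : Lm C6 K) + t • E C6 β = s' • E C6 α + t' • E C6 β) : s = s' ∧ t = t' := by
  constructor
  · have h1 := congrArg (fun x : Lm C6 K => cf x α) h
    simp only [cf_add, cf_smul, cf_E C6 hα, cf_E C6 hβ, if_neg hne, if_true] at h1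
    simpa using h1
  · have h1 := congrArg (fun x : Lm C6 K => cf x β) h
    simp only [cf_add, cf_smul, cf_E C6 hα, cf_E C6 hβ, if_neg hne.symm, if_true] at h1
    simpa using h1

theorem JNL_mem (hESF : ESF_stmt) (hSGR : SGR_stmt) {α β : Fin 6 → ℤ} (hα : LR α) (hβ : LR β)
    {k : Lm C6 K ≃ₗ[K] Lm C6 K} (hk : k ∈ GS (RingEquiv.refl K)) (s t : K) :
    k (s • E C6 α + t • E C6 β) ∈ LT (RingEquiv.refl K) := by
  have hτ : ∀ x : K, (RingEquiv.refl K) ((RingEquiv.refl K) x) = x := fun _ => rfl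
  obtain ⟨hE1, hE2⟩ := hESF K (RingEquiv.refl K) hτ
  obtain ⟨-, -, -, -, -, hG⟩ := hSGR K (RingEquiv.refl K) hτ
  show si (RingEquiv.refl K) (k _) = k _
  rw [(hG k hk).2.2, JNL_si_add, JNL_si_smul, JNL_si_smul, (hE2 _ (hE1 α hα)).2.2.1, (hE2 _ (hE1 β hβ)).2.2.1]
  rfl

theorem JNL_card (hESF : ESF_stmt) (hSGR : SGR_stmt) {α β : Fin 6 → ℤ} (hα : LR α) (hβ : LR β) (hne : α ≠ β)
    {k : Lm C6 K ≃ₗ[K] Lm C6 K} (hk : k ∈ GS (RingEquiv.refl K)) :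
    Nat.card (JNL_V α β k) = Nat.card K * Nat.card K := by
  rw [← Nat.card_prod]
  refine (Nat.card_congr (Equiv.ofBijective
    (fun q : K × K => (⟨⟨k (q.1 • E C6 α + q.2 • E C6 β), JNL_mem hESF hSGR hα hβ hk q.1 q.2⟩, q.1, q.2, rfl⟩ : JNL_V α β k))
    ⟨?_, ?_⟩)).symm
  · intro q q' h
    have h1 : k (q.1 • E C6 α + q.2 • E C6 β) = k (q'.1 • E C6 α + q'.2 • E C6 β) :=
      congrArg (fun x : JNL_V α β k => ((x : LT (RingEquiv.refl K)) : Lm C6 K)) h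
    obtain ⟨h2, h3⟩ := JNL_inj hα.1 hβ.1 hne (k.injective h1)
    exact Prod.ext h2 h3
  · rintro ⟨⟨v, hv⟩, s, t, h⟩
    exact ⟨(s, t), Subtype.ext (Subtype.ext h.symm)⟩

theorem JNL_eq [Finite K] (hESF : ESF_stmt) (hSGR : SGR_stmt) {α β α' β' : Fin 6 → ℤ} (hα : LR α) (hβ : LR β)
    (hne : α ≠ β) (hα' : LR α') (hβ' : LR β') (hne' : α' ≠ β')
    {k k' : Lm C6 K ≃ₗ[K] Lm C6 K} (hk : k ∈ GS (RingEquiv.refl K)) (hk' : k' ∈ GS (RingEquiv.refl K))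
    (hs : JNL_V α β k ⊆ JNL_V α' β' k') : JNL_V α β k = JNL_V α' β' k' := by
  have h1 := JNL_card (K := K) hESF hSGR hα hβ hne hk
  have h2 := JNL_card (K := K) hESF hSGR hα' hβ' hne' hk'
  refine Set.eq_of_subset_of_ncard_le hs ?_ (Set.toFinite _)
  rw [← Nat.card_coe_set_eq, ← Nat.card_coe_set_eq, h1, h2]

theorem JNL_add {α β : Fin 6 → ℤ} {k : Lm C6 K ≃ₗ[K] Lm C6 K} {v w x : LT (RingEquiv.refl K)} (hv : v ∈ JNL_V α β k)
    (hw : w ∈ JNL_V α β k) (a b : K) (hx : (x : Lm C6 K) = a • (v : Lm C6 K) + b • (w : Lm C6 K)) : x ∈ JNL_V α β k := by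
  obtain ⟨s, t, h⟩ := hv
  obtain ⟨s', t', h'⟩ := hw
  refine ⟨a * s + b * s', a * t + b * t', ?_⟩
  rw [hx, h, h', ← map_smul, ← map_smul, ← map_add]
  congr 1
  module

theorem JNL_img {α β : Fin 6 → ℤ} (g : Equiv.Perm (LT (RingEquiv.refl K))) (k' k : Lm C6 K ≃ₗ[K] Lm C6 K)
    (hg : ∀ w : LT (RingEquiv.refl K), (g w : Lm C6 K) = k' w) :
    (g : LT (RingEquiv.refl K) → LT (RingEquiv.refl K)) '' JNL_V α β k = JNL_V α β (k' * k) := by
  ext w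
  constructor
  · rintro ⟨w', ⟨s, t, h⟩, rfl⟩
    exact ⟨s, t, by rw [hg, h]; rfl⟩
  · rintro ⟨s, t, h⟩
    refine ⟨g⁻¹ w, ⟨s, t, ?_⟩, g.apply_symm_apply w⟩
    have h1 := hg (g⁻¹ w)
    have h2 : g (g⁻¹ w) = w := g.apply_symm_apply w
    rw [h2, h] at h1
    exact (k'.injective h1).symm

/-- `U` on `E (th - α₁)` -/
theorem JNL_ub (hLST : LST_stmt) : ∀ u ∈ UG C6 K, ∃ κ : K, u (E C6 JNL_b) = E C6 JNL_b + κ • (E C6 th : Lm C6 K) := by
  obtain ⟨f1, -⟩ := f_FPU 6 C6 K 1 th ![0, 2, 3, 4, 5] f_DE6.2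
  intro u hu
  induction hu using Subgroup.closure_induction with
  | mem g hg =>
    obtain ⟨γ, hγ, hp, t, ht⟩ := hg
    obtain ⟨a1, a2, -⟩ := f_ACT 6 C6 K γ t hγ
    rcases JNL_f1 γ ((hLST γ).1 hγ) hp with h | ⟨h, h'⟩
    · exact ⟨0, by rw [ht, a1 _ JNL_f3.1 h, zero_smul, add_zero]⟩
    · exact ⟨t * (sg C6 γ JNL_b : K), by rw [ht, a2 _ JNL_f3.1 h, h']⟩
  | one => exact ⟨0, by simp⟩
  | mul x y hx' hy' hx hy =>
    obtain ⟨κ, hκ⟩ := hx
    obtain ⟨κ', hκ'⟩ := hy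
    refine ⟨κ + κ', ?_⟩
    rw [LinearEquiv.mul_apply, hκ', map_add, map_smul, hκ, f1 x hx']
    module
  | inv x hx' hx =>
    obtain ⟨κ, hκ⟩ := hx
    refine ⟨-κ, ?_⟩
    apply x.injective
    have h1 : x (x⁻¹ (E C6 JNL_b)) = (E C6 JNL_b : Lm C6 K) := LinearEquiv.apply_symm_apply x _
    rw [h1, map_add, map_smul, hκ, f1 x hx']
    module

/-- a simple root element which moves `E β` out of the plane -/
theorem JNL_xi (hRTF : RTF_stmt) (hSGR : SGR_stmt) (hACS : ACS_stmt) (τ : K ≃+* K) (hτ : ∀ x, τ (τ x) = x)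
    (β : Fin 6 → ℤ) (hβ : LR β) (i : Fin 6) (hi : ip C6 β (sr i) = -1) :
    ∃ h ∈ GS τ, h ∈ UG C6 K ∧ cf (h (E C6 β) : Lm C6 K) (sr i + β) ≠ 0 := by
  obtain ⟨hpi, -, hpa, hneg, hps, hpp, -, -, -, hsn, -, -, hperp, hth, -⟩ := hRTF
  obtain ⟨hS1, hS2, -, -, hS5, -⟩ := hSGR K τ hτ
  by_cases hpn : pn i = i
  · have hL : LR (sr i) := ⟨ip_sr_self C6 i, by rw [hps, hpn]⟩
    obtain ⟨h, hhG, hh⟩ := hS2 (sr i) 1 hL (map_one τ)
    have hU : h ∈ UG C6 K := Subgroup.subset_closure ⟨sr i, ip_sr_self C6 i, FPT_pos i, 1, hh⟩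
    refine ⟨h, hhG, hU, ?_⟩
    rw [hh (E C6 β)]
    exact (FPT_cf (K := K) β hβ.1 i hi).1
  · have hSr : SR (sr i) := by
      refine ⟨ip_sr_self C6 i, ?_⟩
      rw [hps]
      intro h
      apply hpn
      by_contra hne3
      have h5 := congrFun h (pn i)
      simp [sr, Pi.single_apply, hne3] at h5
    obtain ⟨h, hhG, hh⟩ := hS1 (sr i) 1 hSr
    have hi' : ip C6 (sr i) β = -1 := by rw [ip_comm, hi]
    obtain ⟨hA1, -, -, hA⟩ := hACS K τ hτ (sr i) β hSr hβ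
    obtain ⟨-, hA2⟩ := hA 1 h hh
    obtain ⟨-, hA3⟩ := hA2 hi'
    have hU : h ∈ UG C6 K := by
      obtain ⟨-, hExE, hExa, -⟩ := f_EXF 6 C6 K (f_NBR 6 C6 1 th ![0, 2, 3, 4, 5] f_DE6.2).1
      obtain ⟨-, -, -, -, hx1, -⟩ := hExa (E C6 (sr i)) (hExE (sr i) (ip_sr_self C6 i))
      obtain ⟨-, -, -, -, hx2, -⟩ := hExa (E C6 (sr (pn i))) (hExE (sr (pn i)) (ip_sr_self C6 (pn i)))
      obtain ⟨p, -, hp⟩ := hx1 1
      obtain ⟨q, -, hq⟩ := hx2 ((sn (sr i) : K) * τ 1)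
      have e : h = p * q := by
        ext v : 1
        rw [LinearEquiv.mul_apply, hp, hq, hh v, hps]
      rw [e]
      exact mul_mem (Subgroup.subset_closure ⟨sr i, ip_sr_self C6 i, FPT_pos i, _, hp⟩)
        (Subgroup.subset_closure ⟨sr (pn i), ip_sr_self C6 (pn i), FPT_pos (pn i), _, hq⟩)
    refine ⟨h, hhG, hU, ?_⟩
    rw [hA3]
    have hr : ip C6 (sr i + β) (sr i + β) = 2 := (add_root_iff (ip_sr_self C6 i) hβ.1).2 hi'
    have hp1 : ip C6 (pv (sr i)) β = -1 := by rw [hA1, hi']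
    have hps2 : ip C6 (pv (sr i)) (pv (sr i)) = 2 := by rw [hpi]; exact ip_sr_self C6 i
    have hr2 : ip C6 (pv (sr i) + β) (pv (sr i) + β) = 2 := (add_root_iff hps2 hβ.1).2 hp1
    have hr3 : ip C6 (sr i + pv (sr i) + β) (sr i + pv (sr i) + β) = 2 := by
      have h6 : ip C6 (sr i) (pv (sr i) + β) = -1 := by rw [ip_add_right, hperp (sr i) hSr, hi', zero_add]
      have h7 := (add_root_iff (ip_sr_self C6 i) hr2).2 h6
      rw [add_assoc]
      exact h7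
    have hsr : (sr i : Fin 6 → ℤ) ≠ 0 := by
      intro h0
      have h1 := ip_sr_self C6 i
      rw [h0] at h1
      simp at h1
    have hsr' : pv (sr i) ≠ 0 := by
      intro h0
      rw [h0] at hps2
      simp at hps2
    simp only [cf_add, cf_smul]
    rw [cf_E C6 hβ.1, cf_E C6 hr, cf_E C6 hr2, cf_E C6 hr3, if_pos rfl, if_neg (fun h => hsr (by simpa using h)),
      if_neg (fun h => hSr.2 (by simpa using h.symm)), if_neg ?_]
    · have h4 := sg_ne_zero (F := K) C6 (sr i) β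
      simpa using h4
    · intro h
      apply hsr'
      calc pv (sr i) = (sr i + pv (sr i) + β) - (sr i + β) := by abel
        _ = 0 := by rw [← h, sub_self]

theorem JNL_pln (s t : K) : (pln ![s, t, 0] : Lm C6 K) = s • E C6 th + t • E C6 JNL_b := by
  unfold pln
  rw [JNL_b_eq]
  simp

/-- the only plane stable under `U` -/
theorem JNL_uniq [Finite K] (h2 : (2 : K) = 0) (hLST : LST_stmt) (hRTF : RTF_stmt) (hSGR : SGR_stmt) (hESF : ESF_stmt)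
    (hGFX : GFX_stmt) (hYSS : YSS_stmt) (hTFS : TFS_stmt) (hFPT : FPT_stmt) (hCLF : CLF_stmt) (hACS : ACS_stmt)
    (hUp : IsPGroup 2 (SYT_U (RingEquiv.refl K)))
    (k : Lm C6 K ≃ₗ[K] Lm C6 K) (hk : k ∈ GS (RingEquiv.refl K))
    (hst : ∀ u ∈ SYT_U (RingEquiv.refl K), ∀ w ∈ JNL_V th JNL_b k,
      ((u : GF (RingEquiv.refl K)) : Equiv.Perm (LT (RingEquiv.refl K))) w ∈ JNL_V th JNL_b k) :
    JNL_V th JNL_b k = JNL_V th JNL_b 1 := by
  set τ : K ≃+* K := RingEquiv.refl K with hτdef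
  have hτ : ∀ x : K, τ (τ x) = x := fun _ => rfl
  have hτ1 : ∀ x : K, τ x = x := fun _ => rfl
  obtain ⟨hE1, hE2⟩ := hESF K τ hτ
  have hth : LR th := hRTF.2.2.2.2.2.2.2.2.2.2.2.2.2.1
  have hthip : ∀ v, ip C6 th v = v 1 := hRTF.2.2.2.2.2.2.2.2.2.2.2.2.2.2
  have hb : LR JNL_b := ⟨JNL_f3.1, JNL_f3.2.1⟩
  have hbne : th ≠ JNL_b := JNL_f3.2.2.symm
  have hEth : ExS τ (E C6 th : Lm C6 K) := hE1 th hth
  obtain ⟨f1, -⟩ := f_FPU 6 C6 K 1 th ![0, 2, 3, 4, 5] f_DE6.2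
  obtain ⟨hC1, hC2, -⟩ := hCLF K τ hτ
  have hkinj := k.injective
  -- elements of `U`
  have hlift : ∀ u ∈ GS τ, u ∈ UG C6 K → ∃ g : GF τ, g ∈ SYT_U τ ∧ ∀ w : LT τ, ((g : Equiv.Perm (LT τ)) w : Lm C6 K) = u w := by
    intro u hu hu'
    obtain ⟨g, hg, hgu⟩ := (hGFX K τ hτ).1 u hu
    exact ⟨⟨g, hg⟩, ⟨u, hu, hu', hgu⟩, hgu⟩
  -- a fixed vector
  have h0 : (0 : Lm C6 K) ∈ LT τ := by
    have h := JNL_mem (K := K) hESF hSGR hth hb hk 0 0
    rw [zero_smul, zero_smul, add_zero, map_zero] at h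
    exact h
  have hcard : 2 ∣ Nat.card (JNL_V th JNL_b k) := by
    rw [JNL_card hESF hSGR hth hb hbne hk]
    haveI : CharP K 2 := (CharP.charP_iff_prime_eq_zero Nat.prime_two).2 (by exact_mod_cast h2)
    haveI := Fintype.ofFinite K
    have h3 : 2 ∣ Nat.card K := by
      rw [Nat.card_eq_fintype_card]
      exact (CharP.cast_eq_zero_iff K 2 _).1 (Nat.cast_card_eq_zero K)
    exact h3.mul_right _
  obtain ⟨w, hw, hw0, hwu⟩ := JNL_fix (GF τ) (SYT_U τ) hUp (JNL_V th JNL_b k) hst hcard ⟨0, h0⟩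
    ⟨0, 0, by simp⟩ (by
      rintro g ⟨u, -, -, hu⟩
      apply Subtype.ext
      rw [hu]
      exact map_zero u)
  obtain ⟨s, t, hst1⟩ := hw
  have hst0 : (![s, t, 0] : Fin 3 → K) ≠ 0 := by
    intro h
    apply hw0
    apply Subtype.ext
    have e1 : s = 0 := congrFun h 0
    have e2 : t = 0 := congrFun h 1
    rw [hst1, e1, e2]
    simp
  have hwpl : (w : Lm C6 K) = k (pln ![s, t, 0]) := by rw [hst1, JNL_pln]
  have hwex : ExS τ (w : Lm C6 K) := by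
    rw [hwpl]
    exact (hE2 _ (hC1 _ (fun _ => rfl) hst0)).2.2.2.1 k hk
  obtain ⟨c, -, hc⟩ := hFPT K τ hτ (w : Lm C6 K) hwex (by
    intro u hu hu'
    obtain ⟨g, hg, hgu⟩ := hlift u hu hu'
    refine ⟨1, ?_⟩
    rw [one_smul, ← hgu w, hwu g hg])
  have hc0 : c ≠ 0 := by
    rintro rfl
    exact (hE2 _ hwex).2.1 (by rw [hc, zero_smul])
  have hEthk : (E C6 th : Lm C6 K) = k (pln ![c⁻¹ * s, c⁻¹ * t, 0]) := by
    rw [JNL_pln]
    have e : (c⁻¹ * s) • (E C6 th : Lm C6 K) + (c⁻¹ * t) • E C6 JNL_b = c⁻¹ • (s • E C6 th + t • E C6 JNL_b) := by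
      module
    rw [e, map_smul, ← hst1, hc, smul_smul, inv_mul_cancel₀ hc0, one_smul]
  -- an independent vector
  obtain ⟨s', t', hind⟩ : ∃ s' t' : K, s * t' - t * s' ≠ 0 := by
    by_cases hs : s = 0
    · have ht : t ≠ 0 := by
        intro ht
        apply hst0
        rw [hs, ht]
        funext i
        fin_cases i <;> rfl
      refine ⟨1, 0, ?_⟩
      rw [hs]
      simpa using ht
    · refine ⟨0, 1, ?_⟩
      simpa using hs
  have hst0' : (![s', t', 0] : Fin 3 → K) ≠ 0 := by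
    intro h
    have e1 : s' = 0 := congrFun h 0
    have e2 : t' = 0 := congrFun h 1
    apply hind
    rw [e1, e2]
    ring
  have hbex : ExS τ (k (pln ![s', t', 0]) : Lm C6 K) := (hE2 _ (hC1 _ (fun _ => rfl) hst0')).2.2.2.1 k hk
  obtain ⟨g1, hg1, β1, hβ1, c1, -, hc1, hb1⟩ := hbex
  obtain ⟨u, hu, hu', β, hβ, c2, -, hc2, hb2⟩ := hYSS K τ hτ g1 hg1 β1 hβ1
  rw [hb2, smul_smul] at hb1
  have hcc : c1 * c2 ≠ 0 := mul_ne_zero hc1 hc2
  have huE : u (E C6 β) = k (((c1 * c2)⁻¹ * s') • E C6 th + ((c1 * c2)⁻¹ * t') • (E C6 JNL_b : Lm C6 K)) := by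
    have e : ((c1 * c2)⁻¹ * s') • (E C6 th : Lm C6 K) + ((c1 * c2)⁻¹ * t') • E C6 JNL_b =
        (c1 * c2)⁻¹ • (s' • E C6 th + t' • E C6 JNL_b) := by module
    rw [e, map_smul, ← JNL_pln, hb1, smul_smul, inv_mul_cancel₀ hcc, one_smul]
  have hEβm : (E C6 β : Lm C6 K) ∈ LT τ := (hE2 _ (hE1 β hβ)).2.2.1
  have hβS : (⟨E C6 β, hEβm⟩ : LT τ) ∈ JNL_V th JNL_b k := by
    obtain ⟨g, hg, hgu⟩ := hlift u⁻¹ (inv_mem hu) (inv_mem hu')
    have hum : u (E C6 β) ∈ LT τ := by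
      rw [huE]
      exact JNL_mem hESF hSGR hth hb hk _ _
    have h3 := hst g hg ⟨u (E C6 β), hum⟩ ⟨_, _, huE⟩
    have h4 : (g : Equiv.Perm (LT τ)) ⟨u (E C6 β), hum⟩ = ⟨E C6 β, hEβm⟩ := by
      apply Subtype.ext
      rw [hgu]
      exact u.symm_apply_apply _
    rw [h4] at h3
    exact h3
  have hthm : (E C6 th : Lm C6 K) ∈ LT τ := (hE2 _ hEth).2.2.1
  have hthS : (⟨E C6 th, hthm⟩ : LT τ) ∈ JNL_V th JNL_b k := ⟨_, _, by rw [← JNL_pln]; exact hEthk⟩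
  have hβth : β ≠ th := by
    rintro rfl
    have h5 : (E C6 th : Lm C6 K) = k (((c1 * c2)⁻¹ * s') • E C6 th + ((c1 * c2)⁻¹ * t') • (E C6 JNL_b : Lm C6 K)) :=
      (f1 u hu').symm.trans huE
    have h6 : k ((c⁻¹ * s) • E C6 th + (c⁻¹ * t) • (E C6 JNL_b : Lm C6 K)) = (E C6 th : Lm C6 K) := by
      rw [← JNL_pln]
      exact hEthk.symm
    obtain ⟨e1, e2⟩ := JNL_inj hth.1 hb.1 hbne (hkinj (h6.trans h5))
    apply hind
    have i1 : s = c * ((c1 * c2)⁻¹ * s') := by rw [← e1, ← mul_assoc, mul_inv_cancel₀ hc0, one_mul]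
    have i2 : t = c * ((c1 * c2)⁻¹ * t') := by rw [← e2, ← mul_assoc, mul_inv_cancel₀ hc0, one_mul]
    rw [i1, i2]
    ring
  obtain ⟨p, q, hpq⟩ := hβS
  have hpq' : (E C6 β : Lm C6 K) = k (p • E C6 th + q • E C6 JNL_b) := hpq
  -- the type
  have hip : ip C6 th β = 1 := by
    have hli : LinearIndependent K ![(![c⁻¹ * s, c⁻¹ * t, 0] : Fin 3 → K), ![p, q, 0]] := by
      rw [LinearIndependent.pair_iff]
      intro x y hxy
      have e1 : x * (c⁻¹ * s) + y * p = 0 := congrFun hxy 0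
      have e2 : x * (c⁻¹ * t) + y * q = 0 := congrFun hxy 1
      have h3 : x • (E C6 th : Lm C6 K) + y • E C6 β = (0 : K) • E C6 th + (0 : K) • E C6 β := by
        rw [hEthk, hpq', JNL_pln, ← map_smul, ← map_smul, ← map_add]
        have e3 : x • ((c⁻¹ * s) • (E C6 th : Lm C6 K) + (c⁻¹ * t) • E C6 JNL_b) + y • (p • E C6 th + q • E C6 JNL_b) =
            (x * (c⁻¹ * s) + y * p) • E C6 th + (x * (c⁻¹ * t) + y * q) • E C6 JNL_b := by module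
        rw [e3, e1, e2]
        simp
      exact JNL_inj hth.1 hβ.1 hβth.symm h3
    have hT1 := hC2 _ _ (fun _ => rfl) (fun _ => rfl) hli
    have hT2 := (hTFS K τ hτ _ _ _ hT1).2.2.2.1 k hk
    rw [← hEthk, JNL_pln, ← hpq'] at hT2
    obtain ⟨v, -, hv⟩ := (hTFS K τ hτ _ _ _ hT2).2.2.2.2.2.2.2.1 rfl
    have h3 : cf (E C6 β : Lm C6 K) β = cf (br C6 (E C6 th) v : Lm C6 K) β := by rw [← hv]
    rw [cf_E C6 hβ.1, if_pos rfl, (br_E C6 hth.1 v).2 β hβ.1, if_neg hβth, neg_zero, zero_add] at h3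
    have h4 : ip C6 (β - th) (β - th) = 2 := by
      by_contra hne
      rw [cf_eq_zero C6 v hne, mul_zero] at h3
      exact one_ne_zero h3
    rw [ip_sub_left, ip_sub_right, ip_sub_right, hβ.1, hth.1, ip_comm C6 β th] at h4
    omega
  by_cases hβb : β = JNL_b
  · subst hβb
    refine (JNL_eq hESF hSGR hth hb hbne hth hb hbne (one_mem _) hk ?_).symm
    rintro x ⟨a, a', hx⟩
    exact JNL_add hthS ⟨p, q, hpq⟩ a a' (by rw [hx]; rfl)
  · exfalso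
    obtain ⟨i, hi1, hi⟩ := JNL_f2 β ((hLST β).1 hβ.1) hβ.2 ((hthip β).symm.trans hip) hβb
    obtain ⟨h, hh, hh', hcf⟩ := JNL_xi hRTF hSGR hACS τ hτ β hβ i hi
    have hVV : JNL_V th β 1 = JNL_V th JNL_b k := by
      refine JNL_eq hESF hSGR hth hβ hβth.symm hth hb hbne (one_mem _) hk ?_
      rintro x ⟨a, a', hx⟩
      exact JNL_add hthS ⟨p, q, hpq⟩ a a' (by rw [hx]; rfl)
    obtain ⟨g, hg, hgu⟩ := hlift h hh hh'
    have h3 := hst g hg ⟨E C6 β, hEβm⟩ ⟨p, q, hpq⟩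
    rw [← hVV] at h3
    obtain ⟨a, a', ha⟩ := h3
    rw [hgu] at ha
    have ha' : h (E C6 β) = a • (E C6 th : Lm C6 K) + a' • E C6 β := ha
    rw [ha'] at hcf
    apply hcf
    have n1 : sr i + β ≠ th := by
      intro he
      have h4 := congrArg (fun x : Fin 6 → ℤ => x 1) he
      simp only [Pi.add_apply] at h4
      have h5 : β 1 = 1 := (hthip β).symm.trans hip
      have h6 : (sr i : Fin 6 → ℤ) 1 = 0 := by
        simp [sr, Pi.single_apply, hi1.symm]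
      rw [h5, h6] at h4
      have h7 : th 1 = 2 := rfl
      rw [h7] at h4
      omega
    have n2 : sr i + β ≠ β := by
      intro he
      have h4 : (sr i : Fin 6 → ℤ) = 0 := by simpa using he
      have h5 := ip_sr_self C6 i
      rw [h4] at h5
      simp at h5
    simp only [cf_add, cf_smul, cf_E C6 hth.1, cf_E C6 hβ.1, if_neg n1, if_neg n2, mul_zero, add_zero]

end

theorem JNL (hLST : LST_stmt) (hRTF : RTF_stmt) (hWST : WST_stmt) (hWPS : WPS_stmt) (hSGR : SGR_stmt) (hESF : ESF_stmt)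
    (hGFX : GFX_stmt) (hYSS : YSS_stmt) (hPCS : PCS_stmt) (hTFS : TFS_stmt) (hFPT : FPT_stmt) (hSYT : SYT_stmt)
    (hCLF : CLF_stmt) (hACS : ACS_stmt) : JNL_stmt := by
  intro K _ _ h2 P hP hUP f hf v hv
  have : Fact (Nat.Prime 2) := ⟨Nat.prime_two⟩
  have hch : CharP K 2 := (CharP.charP_iff_prime_eq_zero Nat.prime_two).2 (by exact_mod_cast h2)
  have e1 : ∀ x : Lm C6 K, (1 : Lm C6 K ≃ₗ[K] Lm C6 K) x = x := fun _ => rfl
  have hth : LR th := hRTF.2.2.2.2.2.2.2.2.2.2.2.2.2.1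
  obtain ⟨f1, -⟩ := f_FPU 6 C6 K 1 th ![0, 2, 3, 4, 5] f_DE6.2
  set X : Set (Set (LT (RingEquiv.refl K))) := {S | ∃ k ∈ GS (RingEquiv.refl K), S = JNL_V th JNL_b k} with hX
  have hst : ∀ g ∈ GF (RingEquiv.refl K), ∀ S ∈ X, (g : LT (RingEquiv.refl K) → LT (RingEquiv.refl K)) '' S ∈ X := by
    rintro g ⟨k', hk', hg⟩ S ⟨k, hk, rfl⟩
    exact ⟨k' * k, mul_mem hk' hk, JNL_img g k' k hg⟩
  have hUp : IsPGroup 2 (SYT_U (RingEquiv.refl K)) := by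
    rintro ⟨g, u, hu1, hu2, hu3⟩
    obtain ⟨k, hk⟩ := f_UPG 6 C6 K 2 Nat.prime_two hch u hu2
    refine ⟨k, Subtype.ext (Subtype.ext (Equiv.ext fun w => Subtype.ext ?_))⟩
    have h1 := SYT_pow (RingEquiv.refl K) g u hu3 (2 ^ k) w
    rw [hk] at h1
    exact h1
  have hUP' : SYT_U (RingEquiv.refl K) ≤ P := fun g hg => hUP g hg
  have hfix : ∀ u ∈ SYT_U (RingEquiv.refl K), (((u : GF (RingEquiv.refl K)) : Equiv.Perm (LT (RingEquiv.refl K))) : LT (RingEquiv.refl K) → LT (RingEquiv.refl K)) '' JNL_V th JNL_b 1 = JNL_V th JNL_b 1 := by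
    rintro g ⟨u, hu1, hu2, hu3⟩
    rw [JNL_img _ u 1 hu3, mul_one]
    obtain ⟨κ, hκ⟩ := JNL_ub (K := K) hLST u hu2
    ext w
    constructor
    · rintro ⟨s, t, h⟩
      refine ⟨s + t * κ, t, ?_⟩
      rw [h, map_add, map_smul, map_smul, f1 u hu2, hκ, e1]
      module
    · rintro ⟨s, t, h⟩
      refine ⟨s - t * κ, t, ?_⟩
      rw [map_add, map_smul, map_smul, f1 u hu2, hκ, h, e1]
      module
  have huniq : ∀ S ∈ X, (∀ u ∈ SYT_U (RingEquiv.refl K), (((u : GF (RingEquiv.refl K)) : Equiv.Perm (LT (RingEquiv.refl K))) : LT (RingEquiv.refl K) → LT (RingEquiv.refl K)) '' S = S) →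
      S = JNL_V th JNL_b 1 := by
    rintro S ⟨k, hk, rfl⟩ hS
    refine JNL_uniq h2 hLST hRTF hSGR hESF hGFX hYSS hTFS hFPT hCLF hACS hUp k hk ?_
    intro u hu w hw
    have h3 := hS u hu
    rw [← h3]
    exact ⟨w, hw, rfl⟩
  have hmain := SYT_core (p := 2) (GF (RingEquiv.refl K)) X hst (SYT_U (RingEquiv.refl K)) P hUp hP hUP' (JNL_V th JNL_b 1) ⟨1, one_mem _, rfl⟩
    hfix huniq f hf
  have hv0 : v ∈ JNL_V th JNL_b 1 := ⟨0, 1, by rw [hv, zero_smul, zero_add, one_smul]; rfl⟩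
  have hfv : (f : Equiv.Perm (LT (RingEquiv.refl K))) v ∈ JNL_V th JNL_b 1 := by
    rw [← hmain]
    exact ⟨v, hv0, rfl⟩
  obtain ⟨s, t, h⟩ := hfv
  refine ⟨t, s, ?_⟩
  rw [h, add_comm]
  rfl

end Pool.Agent.EXT
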